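import Pool.Agent.R181.MajPieces

/-!
# Triple systems closed under Mal'tsev operations: the abstract argument

`A` is a finite set of triples with coordinates `f i : A → X i`, `i = 0, 1, 2`, and a Mal'tsev
operation `p` on `A` that acts componentwise.
-/

set_option autoImplicit false

universe u

namespace Pool.Agent.T3h47.BM

open Finset Pool.Agent.R181.Maj Pool.Agent.R181.LW

/-- `p` is a Mal'tsev operation. -/
def IsMaltsev {A : Type*} (p : A → A → A → A) : Prop := ∀ a b, p a a b = b ∧ p b a a = b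

section Cong

variable {A : Type*} {p : A → A → A → A}

theorem permute (hp : IsMaltsev p) {α β : Setoid A} (hα : Compat p α) (hβ : Compat p β)
    {x y z : A} (h1 : α x y) (h2 : β y z) : ∃ w, β x w ∧ α w z := by
  refine ⟨p x y z, ?_, ?_⟩
  · have h := hβ x x y y y z (β.refl _) (β.refl _) h2
    rwa [(hp y x).2] at h
  · have h := hα x y y y z z h1 (α.refl _) (α.refl _)
    rwa [(hp y z).1] at h

theorem sup_comp (hp : IsMaltsev p) {α β : Setoid A} (hα : Compat p α) (hβ : Compat p β)
    {x z : A} (h : (α ⊔ β) x z) : ∃ y, α x y ∧ β y z := by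
  let c : Setoid A :=
    { r := fun x z => ∃ y, α x y ∧ β y z
      iseqv := by
        refine ⟨fun x => ⟨x, α.refl _, β.refl _⟩, ?_, ?_⟩
        · rintro x z ⟨y, h1, h2⟩
          exact permute hp hβ hα (β.symm h2) (α.symm h1)
        · rintro x z w ⟨y, h1, h2⟩ ⟨v, h3, h4⟩
          obtain ⟨t, h5, h6⟩ := permute hp hβ hα h2 h3
          exact ⟨t, α.trans h1 h5, β.trans h6 h4⟩ }
  have h1 : α ≤ c := fun x y h => ⟨y, h, β.refl _⟩
  have h2 : β ≤ c := fun x y h => ⟨x, α.refl _, h⟩
  exact (sup_le h1 h2) h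

end Cong

section Main

variable {A : Type*} {X : Fin 3 → Type u} (p : A → A → A → A) (f : ∀ i, A → X i)

/-- The kernel of the join of the two other coordinates. -/
noncomputable def psi (i : Fin 3) : Setoid A := Setoid.ker (f (i + 1)) ⊔ Setoid.ker (f (i + 2))

theorem ker_le_psi {i j : Fin 3} (h : j ≠ i) : Setoid.ker (f j) ≤ psi f i := by
  unfold psi
  have h1 : j = i + 1 ∨ j = i + 2 := by revert i j; decide
  rcases h1 with rfl | rfl
  · exact le_sup_left
  · exact le_sup_right

theorem le_psi {i j : Fin 3} (h : j ≠ i) {x y : A} (hxy : f j x = f j y) : psi f i x y :=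
  ker_le_psi f h hxy

/-- The big classes. -/
def UU (x y : A) : Prop := ∀ i, psi f i x y

theorem UU.refl (x : A) : UU f x x := fun i => (psi f i).refl _

theorem UU.symm {x y : A} (h : UU f x y) : UU f y x := fun i => (psi f i).symm (h i)

theorem UU.trans {x y z : A} (h : UU f x y) (h' : UU f y z) : UU f x z :=
  fun i => (psi f i).trans (h i) (h' i)

variable {p f}

theorem compat_ker {q : ∀ i, X i → X i → X i → X i}
    (hf : ∀ i a b c, f i (p a b c) = q i (f i a) (f i b) (f i c)) (i : Fin 3) :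
    Compat p (Setoid.ker (f i)) := by
  intro a a' b b' c c' h1 h2 h3
  rw [Setoid.ker_def] at *
  rw [hf, hf, h1, h2, h3]

theorem compat_psi {q : ∀ i, X i → X i → X i → X i}
    (hf : ∀ i a b c, f i (p a b c) = q i (f i a) (f i b) (f i c)) (i : Fin 3) :
    Compat p (psi f i) := compat_sup (compat_ker hf _) (compat_ker hf _)

theorem join {q : ∀ i, X i → X i → X i → X i} (hp : IsMaltsev p)
    (hf : ∀ i a b c, f i (p a b c) = q i (f i a) (f i b) (f i c)) {i j : Fin 3} (hij : i ≠ j)
    {x y : A} (h : UU f x y) : ∃ g, f i g = f i x ∧ f j g = f j y ∧ UU f x g := by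
  have hk : ∃ k : Fin 3, (k + 1 = i ∧ k + 2 = j) ∨ (k + 1 = j ∧ k + 2 = i) := by
    revert i j; decide
  obtain ⟨k, hk⟩ := hk
  have h1 : (Setoid.ker (f i) ⊔ Setoid.ker (f j)) x y := by
    have h2 := h k
    unfold psi at h2
    rcases hk with ⟨h3, h4⟩ | ⟨h3, h4⟩
    · rwa [h3, h4] at h2
    · rw [h3, h4, sup_comm] at h2
      exact h2
  obtain ⟨g, h2, h3⟩ := sup_comp hp (compat_ker hf i) (compat_ker hf j) h1
  have h2' : f i x = f i g := h2
  have h3' : f j g = f j y := h3
  refine ⟨g, h2'.symm, h3', fun l => ?_⟩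
  by_cases hl : l = i
  · subst hl
    exact (psi f l).trans (h l) ((psi f l).symm (le_psi f (Ne.symm hij) h3'))
  · exact le_psi f (Ne.symm hl) h2'

theorem arith {a b c t : ℕ} (ha : 1 ≤ a) (hb : 1 ≤ b) (hc : 1 ≤ c) (h1 : a * b ≤ t)
    (h2 : a * c ≤ t) (h3 : b * c ≤ t) : a + b + c ≤ t + 2 := by
  have key : ∀ x y z : ℕ, 1 ≤ x → 1 ≤ y → 1 ≤ z → z ≤ y → y ≤ x → x * y ≤ t →
      x + y + z ≤ t + 2 := by
    intro x y z hx hy hz h h' h''
    obtain ⟨x, rfl⟩ := Nat.exists_eq_add_of_le hx
    obtain ⟨y, rfl⟩ := Nat.exists_eq_add_of_le hy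
    rcases Nat.eq_zero_or_pos x with rfl | hx0
    · have : y = 0 := by omega
      subst this
      omega
    · nlinarith
  rcases le_total a b with h | h <;> rcases le_total b c with h' | h' <;>
    rcases le_total a c with h'' | h''
  · have := key c b a hc hb ha h h' (by rw [mul_comm]; exact h3); omega
  · have := key c b a hc hb ha h h' (by rw [mul_comm]; exact h3); omega
  · have := key b c a hb hc ha h'' h' h3; omega
  · have := key b a c hb ha hc h'' h (by rw [mul_comm]; exact h1); omega
  · have := key c a b hc ha hb h h'' (by rw [mul_comm]; exact h2); omega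
  · have := key a c b ha hc hb h' h'' h2; omega
  · have := key a b c ha hb hc h' h h1; omega
  · have := key a b c ha hb hc h' h h1; omega

variable [Fintype A] [∀ i, DecidableEq (X i)]

theorem spn_insert (f : ∀ i, A → X i) [DecidableEq A] (T : Finset A) (c : A) :
    spn f (insert c T) ≤ spn f T + #(univ.filter fun i : Fin 3 => f i c ∉ T.image (f i)) := by
  unfold spn
  rw [card_filter, ← sum_add_distrib]
  refine sum_le_sum fun i _ => ?_
  rw [image_insert]
  by_cases h : f i c ∈ T.image (f i)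
  · rw [insert_eq_of_mem h, if_neg (by simpa using h)]
    omega
  · rw [if_pos h]
    exact card_insert_le _ _

/-- Growth inside one big class. -/
theorem growU {q : ∀ i, X i → X i → X i → X i} (hp : IsMaltsev p)
    (hf : ∀ i a b c, f i (p a b c) = q i (f i a) (f i b) (f i c)) (x₀ : A) (C : Finset A)
    (hC : ∀ y, y ∈ C ↔ UU f x₀ y) (e : ℕ) (he : 1 ≤ e) :
    e ≤ #C → ∃ T ⊆ C, #T = e ∧ spn f T ≤ e + 3 := by
  classical
  induction e, he using Nat.le_induction with
  | base =>
    intro _
    refine ⟨{x₀}, singleton_subset_iff.2 ((hC _).2 (UU.refl f _)), card_singleton _, ?_⟩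
    have : spn f {x₀} = 3 := by simp [spn]
    omega
  | succ e he ih =>
    intro hle
    obtain ⟨T, hTC, hTe, hT⟩ := ih (by omega)
    have hUU : ∀ x ∈ C, ∀ y ∈ C, UU f x y := fun x hx y hy =>
      UU.trans f (UU.symm f ((hC x).1 hx)) ((hC y).1 hy)
    have hmem : ∀ x ∈ C, ∀ y, UU f x y → y ∈ C := fun x hx y hy =>
      (hC y).2 (UU.trans f ((hC x).1 hx) hy)
    by_cases hcase : ∃ c ∈ C, c ∉ T ∧
        #(univ.filter fun i : Fin 3 => f i c ∉ T.image (f i)) ≤ 1
    · obtain ⟨c, hcC, hcT, hc⟩ := hcase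
      refine ⟨insert c T, insert_subset_iff.2 ⟨hcC, hTC⟩, by rw [card_insert_of_notMem hcT, hTe],
        ?_⟩
      have := spn_insert f T c
      omega
    · push Not at hcase
      obtain ⟨t₀, ht₀⟩ := card_pos.1 (by omega : 0 < #T)
      have hprod : ∀ i j : Fin 3, i ≠ j → #(T.image (f i)) * #(T.image (f j)) ≤ #T := by
        intro i j hij
        rw [← card_product]
        refine card_le_card_of_surjOn (fun g => (f i g, f j g)) ?_
        rintro ⟨a, b⟩ hab
        rw [mem_coe, mem_product] at hab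
        obtain ⟨t1, ht1, h1⟩ := mem_image.1 hab.1
        obtain ⟨t2, ht2, h2⟩ := mem_image.1 hab.2
        obtain ⟨g, hg1, hg2, hg3⟩ := join hp hf hij (hUU t1 (hTC ht1) t2 (hTC ht2))
        refine ⟨g, ?_, by simp only [hg1, hg2]; exact Prod.ext h1 h2⟩
        rw [mem_coe]
        by_contra hgT
        have h3 := hcase g (hmem t1 (hTC ht1) g hg3) hgT
        have h4 : (univ.filter fun l : Fin 3 => f l g ∉ T.image (f l)) ⊆ (univ.erase i).erase j := by
          intro l hl
          rw [mem_filter] at hl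
          rw [mem_erase, mem_erase]
          refine ⟨?_, ?_, mem_univ _⟩
          · rintro rfl
            exact hl.2 (mem_image.2 ⟨t2, ht2, hg2.symm⟩)
          · rintro rfl
            exact hl.2 (mem_image.2 ⟨t1, ht1, hg1.symm⟩)
        have h5 := card_le_card h4
        rw [card_erase_of_mem (mem_erase.2 ⟨hij.symm, mem_univ _⟩), card_erase_of_mem (mem_univ _),
          card_univ, Fintype.card_fin] at h5
        omega
      have hpos : ∀ i : Fin 3, 1 ≤ #(T.image (f i)) := fun i =>
        card_pos.2 ⟨_, mem_image_of_mem _ ht₀⟩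
      have hspn : spn f T ≤ e + 2 := by
        have h1 := arith (hpos 0) (hpos 1) (hpos 2) (hprod 0 1 (by decide)) (hprod 0 2 (by decide))
          (hprod 1 2 (by decide))
        unfold spn
        rw [Fin.sum_univ_three]
        omega
      have hex : ∃ c ∈ C, c ∉ T ∧ ∃ i : Fin 3, f i c ∈ T.image (f i) := by
        have h1 : ∃ c ∈ C, c ∉ T := by
          by_contra hcon
          push Not at hcon
          have := card_le_card (show C ⊆ T from hcon)
          omega
        obtain ⟨c, hcC, hcT⟩ := h1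
        obtain ⟨g, hg1, hg2, hg3⟩ := join hp hf (show (0 : Fin 3) ≠ 1 by decide)
          (hUU t₀ (hTC ht₀) c hcC)
        by_cases hgT : g ∈ T
        · exact ⟨c, hcC, hcT, 1, mem_image.2 ⟨g, hgT, hg2⟩⟩
        · exact ⟨g, hmem _ (hTC ht₀) _ hg3, hgT, 0, mem_image.2 ⟨t₀, ht₀, hg1.symm⟩⟩
      obtain ⟨c, hcC, hcT, i, hi⟩ := hex
      refine ⟨insert c T, insert_subset_iff.2 ⟨hcC, hTC⟩, by rw [card_insert_of_notMem hcT, hTe],
        ?_⟩
      have h1 := spn_insert f T c
      have h2 : #(univ.filter fun l : Fin 3 => f l c ∉ T.image (f l)) ≤ 2 := by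
        have h3 : (univ.filter fun l : Fin 3 => f l c ∉ T.image (f l)) ⊆ univ.erase i := by
          intro l hl
          rw [mem_filter] at hl
          rw [mem_erase]
          refine ⟨?_, mem_univ _⟩
          rintro rfl
          exact hl.2 hi
        have h4 := card_le_card h3
        rw [card_erase_of_mem (mem_univ _), card_univ, Fintype.card_fin] at h4
        omega
      omega

/-- The big classes have less than `s` elements. -/
theorem card_class {q : ∀ i, X i → X i → X i → X i} (hp : IsMaltsev p)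
    (hf : ∀ i a b c, f i (p a b c) = q i (f i a) (f i b) (f i c)) {s : ℕ} (hs1 : 1 ≤ s)
    (hs : ∀ T : Finset A, #T = s → s + 3 < spn f T) (x₀ : A) (C : Finset A)
    (hC : ∀ y ∈ C, UU f x₀ y) : #C ≤ s - 1 := by
  classical
  set D : Finset A := univ.filter fun y => UU f x₀ y with hD
  have h1 : C ⊆ D := fun y hy => mem_filter.2 ⟨mem_univ _, hC y hy⟩
  refine (card_le_card h1).trans ?_
  by_contra hcon
  push Not at hcon
  obtain ⟨T, -, hTs, hT⟩ := growU hp hf x₀ D
    (fun y => by rw [hD, mem_filter]; exact ⟨fun h => h.2, fun h => ⟨mem_univ _, h⟩⟩) s hs1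
    (by omega)
  have := hs T hTs
  omega

/-- The bound with the exponent `3 / 2`. -/
theorem bound32 {q : ∀ i, X i → X i → X i → X i} (hp : IsMaltsev p)
    (hf : ∀ i a b c, f i (p a b c) = q i (f i a) (f i b) (f i c)) {s : ℕ} (hs1 : 1 ≤ s)
    (hs : ∀ T : Finset A, #T = s → s + 3 < spn f T) :
    Fintype.card A ^ 2 ≤ (s - 1) ^ 2 * ∏ i, #(univ.image (f i)) := by
  classical
  rcases isEmpty_or_nonempty A with hA | hA
  · simp
  let Φ : A → ∀ k, Quotient (psi f k) := fun x k => Quotient.mk _ x
  have hΦ : ∀ x y k, Φ x k = Φ y k ↔ (psi f k) x y := fun x y k => Quotient.eq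
  have h1 : #(univ : Finset A) ≤ (s - 1) * #(univ.image Φ) := by
    refine card_le_mul_card_image_of_maps_to (f := Φ) (fun x hx => mem_image_of_mem _ hx) _ ?_
    intro b hb
    obtain ⟨x₀, -, rfl⟩ := mem_image.1 hb
    refine card_class hp hf hs1 hs x₀ _ fun y hy k => ?_
    rw [mem_filter] at hy
    exact (psi f k).symm ((hΦ y x₀ k).1 (congrFun hy.2 k))
  have hne : (univ.image Φ).Nonempty := ⟨_, mem_image_of_mem Φ (mem_univ (Classical.arbitrary A))⟩
  have h2 := loomisWhitney 2 (fun k => Quotient (psi f k)) (univ.image Φ) hne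
  have h3 : ∀ i : Fin 3, #((univ.image Φ).image fun x => i.removeNth x) ≤
      #(univ.image (f i)) := by
    intro i
    rw [image_image]
    refine card_image_le_of_factor (univ : Finset A) (f i) _ ?_
    intro x _ y _ hxy
    funext k
    show Φ x (i.succAbove k) = Φ y (i.succAbove k)
    rw [hΦ]
    exact le_psi f (Fin.succAbove_ne i k).symm hxy
  rw [← card_univ]
  calc #(univ : Finset A) ^ 2 ≤ ((s - 1) * #(univ.image Φ)) ^ 2 := Nat.pow_le_pow_left h1 _
    _ = (s - 1) ^ 2 * #(univ.image Φ) ^ 2 := mul_pow _ _ _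
    _ ≤ (s - 1) ^ 2 * ∏ i : Fin 3, #((univ.image Φ).image fun x => i.removeNth x) :=
        Nat.mul_le_mul_left _ h2
    _ ≤ _ := Nat.mul_le_mul_left _ (prod_le_prod' fun i _ => h3 i)

end Main

end Pool.Agent.T3h47.BM
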