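import Pool.Agent.T3h47.BM.Core

/-!
# Triple systems closed under Mal'tsev operations: grids and the linear bound
-/

set_option autoImplicit false

universe u

namespace Pool.Agent.T3h47.BM

open Finset Pool.Agent.R181.Maj Pool.Agent.R181.LW

/-- There are `s` points of `[K]³` whose three projections have together at most `s + 3` points. -/
def GridSet (s K : ℕ) : Prop := ∃ T : Finset (Fin 3 → Fin K), #T = s ∧
  ∑ i : Fin 3, #(T.image fun t => fun j : {j : Fin 3 // j ≠ i} => t j) ≤ s + 3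

section Main

variable {A : Type*} {X : Fin 3 → Type u} {p : A → A → A → A} {f : ∀ i, A → X i}

variable [Fintype A] [∀ i, DecidableEq (X i)]

/-- The classes of `psi f i` met by the triples which share the `i`-th vertex with `e`. -/
noncomputable def cls (f : ∀ i, A → X i) (i : Fin 3) (e : A) : Finset (Quotient (psi f i)) := by
  classical exact (univ.filter fun g => f i g = f i e).image fun g => Quotient.mk _ g

theorem mem_cls {i : Fin 3} {e : A} {c : Quotient (psi f i)} :
    c ∈ cls f i e ↔ ∃ g, f i g = f i e ∧ Quotient.mk _ g = c := by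
  simp [cls]

/-- If all three numbers of classes are at least `K` there is a `K × K × K` grid. -/
theorem grid_of_cls {q : ∀ i, X i → X i → X i → X i} (hp : IsMaltsev p)
    (hq : ∀ i, IsMaltsev (q i))
    (hf : ∀ i a b c, f i (p a b c) = q i (f i a) (f i b) (f i c)) {K : ℕ} {e : A}
    (hK : ∀ i, K ≤ #(cls f i e)) :
    ∃ G : (Fin 3 → Fin K) → A, Function.Injective G ∧
      ∀ (i : Fin 3) (t t' : Fin 3 → Fin K), (∀ j, j ≠ i → t j = t' j) → f i (G t) = f i (G t') := by
  classical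
  have h1 : ∀ i, ∃ c : Fin K → A, (∀ t, f i (c t) = f i e) ∧
      ∀ t t', psi f i (c t) (c t') → t = t' := by
    intro i
    obtain ⟨S, hS, hSK⟩ := exists_subset_card_eq (hK i)
    let em : Fin K ≃ S := (Finset.equivFinOfCardEq hSK).symm
    have h2 : ∀ t : Fin K, ∃ g, f i g = f i e ∧ Quotient.mk (psi f i) g = (em t).1 := fun t =>
      mem_cls.1 (hS (em t).2)
    choose c hc1 hc2 using h2
    refine ⟨c, hc1, fun t t' h => ?_⟩
    have h3 : (em t).1 = (em t').1 := by
      rw [← hc2, ← hc2]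
      exact Quotient.sound h
    exact em.injective (Subtype.ext h3)
  choose c hc hcinj using h1
  let H01 : (Fin 3 → Fin K) → A := fun t => p (c 0 (t 0)) e (c 1 (t 1))
  let H12 : (Fin 3 → Fin K) → A := fun t => p (c 1 (t 1)) e (c 2 (t 2))
  let G : (Fin 3 → Fin K) → A := fun t => p (H01 t) (c 1 (t 1)) (H12 t)
  have e0 : ∀ t, f 0 (G t) = q 0 (f 0 (c 1 (t 1))) (f 0 e) (f 0 (c 2 (t 2))) := by
    intro t
    show f 0 (p (p (c 0 (t 0)) e (c 1 (t 1))) (c 1 (t 1)) (p (c 1 (t 1)) e (c 2 (t 2)))) = _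
    rw [hf, hf, hf, hc 0 (t 0), (hq 0 _ _).1, (hq 0 _ _).1]
  have e1 : ∀ t, f 1 (G t) = q 1 (f 1 (c 0 (t 0))) (f 1 e) (f 1 (c 2 (t 2))) := by
    intro t
    show f 1 (p (p (c 0 (t 0)) e (c 1 (t 1))) (c 1 (t 1)) (p (c 1 (t 1)) e (c 2 (t 2)))) = _
    rw [hf, hf, hf, hc 1 (t 1), (hq 1 _ _).2, (hq 1 _ _).1]
  have e2 : ∀ t, f 2 (G t) = q 2 (f 2 (c 0 (t 0))) (f 2 e) (f 2 (c 1 (t 1))) := by
    intro t
    show f 2 (p (p (c 0 (t 0)) e (c 1 (t 1))) (c 1 (t 1)) (p (c 1 (t 1)) e (c 2 (t 2)))) = _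
    rw [hf, hf, hf, hc 2 (t 2), (hq 2 (f 2 e) (f 2 (c 1 (t 1)))).2, (hq 2 _ _).2]
  have hcp := fun i => compat_psi (p := p) (f := f) hf i
  have pe : ∀ (i j : Fin 3), j ≠ i → ∀ t, psi f i (c j t) e := fun i j hji t =>
    le_psi f hji (hc j t)
  have g0 : ∀ t, psi f 0 (G t) (c 0 (t 0)) := by
    intro t
    have a1 : psi f 0 (H01 t) (c 0 (t 0)) := by
      have h := hcp 0 (c 0 (t 0)) (c 0 (t 0)) e e (c 1 (t 1)) e ((psi f 0).refl _)
        ((psi f 0).refl _) (pe 0 1 (by decide) _)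
      rwa [(hp e _).2] at h
    have a2 : psi f 0 (H12 t) e := by
      have h := hcp 0 (c 1 (t 1)) e e e (c 2 (t 2)) e (pe 0 1 (by decide) _)
        ((psi f 0).refl _) (pe 0 2 (by decide) _)
      rwa [(hp e _).2] at h
    have h := hcp 0 _ _ (c 1 (t 1)) e _ _ a1 (pe 0 1 (by decide) _) a2
    rwa [(hp e _).2] at h
  have g1 : ∀ t, psi f 1 (G t) (c 1 (t 1)) := by
    intro t
    have a1 : psi f 1 (H01 t) (c 1 (t 1)) := by
      have h := hcp 1 (c 0 (t 0)) e e e (c 1 (t 1)) (c 1 (t 1)) (pe 1 0 (by decide) _)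
        ((psi f 1).refl _) ((psi f 1).refl _)
      rwa [(hp e _).1] at h
    have a2 : psi f 1 (H12 t) (c 1 (t 1)) := by
      have h := hcp 1 (c 1 (t 1)) (c 1 (t 1)) e e (c 2 (t 2)) e ((psi f 1).refl _)
        ((psi f 1).refl _) (pe 1 2 (by decide) _)
      rwa [(hp e _).2] at h
    have h := hcp 1 _ _ (c 1 (t 1)) (c 1 (t 1)) _ _ a1 ((psi f 1).refl _) a2
    rwa [(hp _ _).1] at h
  have g2 : ∀ t, psi f 2 (G t) (c 2 (t 2)) := by
    intro t
    have a1 : psi f 2 (H01 t) e := by
      have h := hcp 2 (c 0 (t 0)) e e e (c 1 (t 1)) e (pe 2 0 (by decide) _)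
        ((psi f 2).refl _) (pe 2 1 (by decide) _)
      rwa [(hp e _).1] at h
    have a2 : psi f 2 (H12 t) (c 2 (t 2)) := by
      have h := hcp 2 (c 1 (t 1)) e e e (c 2 (t 2)) (c 2 (t 2)) (pe 2 1 (by decide) _)
        ((psi f 2).refl _) ((psi f 2).refl _)
      rwa [(hp e _).1] at h
    have h := hcp 2 _ _ (c 1 (t 1)) e _ _ a1 (pe 2 1 (by decide) _) a2
    rwa [(hp e _).1] at h
  refine ⟨G, ?_, ?_⟩
  · intro t t' h
    have k0 : t 0 = t' 0 := hcinj 0 _ _ ((psi f 0).trans ((psi f 0).symm (g0 t)) (h ▸ g0 t'))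
    have k1 : t 1 = t' 1 := hcinj 1 _ _ ((psi f 1).trans ((psi f 1).symm (g1 t)) (h ▸ g1 t'))
    have k2 : t 2 = t' 2 := hcinj 2 _ _ ((psi f 2).trans ((psi f 2).symm (g2 t)) (h ▸ g2 t'))
    funext i
    fin_cases i
    · exact k0
    · exact k1
    · exact k2
  · intro i t t' h
    fin_cases i
    · show f 0 (G t) = f 0 (G t')
      rw [e0, e0, h 1 (by decide), h 2 (by decide)]
    · show f 1 (G t) = f 1 (G t')
      rw [e1, e1, h 0 (by decide), h 2 (by decide)]
    · show f 2 (G t) = f 2 (G t')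
      rw [e2, e2, h 0 (by decide), h 1 (by decide)]

/-- Without `s` triples on `s + 3` vertices one of the three numbers of classes is small. -/
theorem small_cls {q : ∀ i, X i → X i → X i → X i} (hp : IsMaltsev p)
    (hq : ∀ i, IsMaltsev (q i))
    (hf : ∀ i a b c, f i (p a b c) = q i (f i a) (f i b) (f i c)) {s K : ℕ}
    (hgs : GridSet s K) (hs : ∀ T : Finset A, #T = s → s + 3 < spn f T) (e : A) :
    ∃ i, #(cls f i e) < K := by
  classical
  by_contra hcon
  push Not at hcon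
  obtain ⟨G, hG, hGf⟩ := grid_of_cls hp hq hf hcon
  obtain ⟨T, hT, hTs⟩ := hgs
  have h1 := hs (T.image G) (by rw [card_image_of_injective _ hG, hT])
  have h2 : spn f (T.image G) ≤
      ∑ i : Fin 3, #(T.image fun t => fun j : {j : Fin 3 // j ≠ i} => t j) := by
    unfold spn
    refine sum_le_sum fun i _ => ?_
    rw [image_image]
    refine card_image_le_of_factor T _ _ ?_
    intro t _ t' _ h
    exact hGf i t t' fun j hj => congrFun h ⟨j, hj⟩
  omega

/-- The linear bound. -/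
theorem bound1 {q : ∀ i, X i → X i → X i → X i} (hp : IsMaltsev p)
    (hq : ∀ i, IsMaltsev (q i))
    (hf : ∀ i a b c, f i (p a b c) = q i (f i a) (f i b) (f i c)) {s K : ℕ} (hs1 : 1 ≤ s)
    (hgs : GridSet s K) (hs : ∀ T : Finset A, #T = s → s + 3 < spn f T) :
    Fintype.card A ≤ K * (s - 1) * ∑ i, #(univ.image (f i)) := by
  classical
  have h1 : (univ : Finset A) ⊆ (univ : Finset (Fin 3)).biUnion
      fun i => univ.filter fun e => #(cls f i e) < K := by
    intro e _
    obtain ⟨i, hi⟩ := small_cls hp hq hf hgs hs e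
    exact mem_biUnion.2 ⟨i, mem_univ _, mem_filter.2 ⟨mem_univ _, hi⟩⟩
  have h2 : ∀ i : Fin 3, #(univ.filter fun e : A => #(cls f i e) < K) ≤
      (K * (s - 1)) * #(univ.image (f i)) := by
    intro i
    refine card_le_mul_card_image_of_maps_to (f := f i)
      (fun x _ => mem_image_of_mem _ (mem_univ _)) _ ?_
    intro x hx
    set D := (univ.filter fun e : A => #(cls f i e) < K).filter fun e => f i e = x with hD
    rcases D.eq_empty_or_nonempty with h0 | ⟨e, he⟩
    · rw [h0, card_empty]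
      exact Nat.zero_le _
    · rw [hD, mem_filter, mem_filter] at he
      have h3 : #D ≤ (s - 1) * #(cls f i e) := by
        refine card_le_mul_card_image_of_maps_to
          (f := fun g => (Quotient.mk _ g : Quotient (psi f i))) ?_ _ ?_
        · intro g hg
          rw [hD, mem_filter] at hg
          exact mem_cls.2 ⟨g, hg.2.trans he.2.symm, rfl⟩
        · intro c hc
          obtain ⟨g₀, hg₀, rfl⟩ := mem_cls.1 hc
          refine card_class hp hf hs1 hs g₀ _ fun y hy k => ?_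
          rw [mem_filter, hD, mem_filter] at hy
          by_cases hk : k = i
          · subst hk
            exact (psi f k).symm (Quotient.exact hy.2)
          · exact le_psi f (Ne.symm hk) (hg₀.trans (he.2.trans hy.1.2.symm))
      calc #D ≤ (s - 1) * #(cls f i e) := h3
        _ ≤ (s - 1) * K := Nat.mul_le_mul_left _ he.1.2.le
        _ = K * (s - 1) := mul_comm _ _
  rw [← card_univ]
  calc #(univ : Finset A) ≤ ∑ i : Fin 3, #(univ.filter fun e : A => #(cls f i e) < K) :=
        (card_le_card h1).trans card_biUnion_le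
    _ ≤ ∑ i : Fin 3, (K * (s - 1)) * #(univ.image (f i)) := sum_le_sum fun i _ => h2 i
    _ = K * (s - 1) * ∑ i, #(univ.image (f i)) := by rw [mul_sum]

end Main

end Pool.Agent.T3h47.BM
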