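import Pool.Agent.R181.MajPieces
import Pool.Agent.T3h47.BM.Lin

/-!
# Points of the three-dimensional grid and their projections

The least total size of the three projections of `s` points of `ℤ³` is at most `s + 3` exactly for
`s ∈ {1, 2, 18}` and `s ≥ 22`.
-/

set_option autoImplicit false

namespace Pool.Agent.T3h47.BM

open Finset Pool.Agent.R181.LW

/-- Least half perimeter of a rectangle of area at least `a`. -/
def hp : List ℕ := [0, 2, 3, 4, 4, 5, 5, 6, 6, 6, 7, 7, 7, 8, 8, 8, 8, 9, 9, 9, 9, 10]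

/-- Table of lower bounds for the sum of the half perimeters. -/
def tb : List (List ℕ) := [[0, 100, 100, 100, 100, 100, 100, 100, 100, 100, 100, 100, 100, 100, 100, 100, 100, 100, 100, 100, 100, 100],
  [0, 2, 4, 6, 8, 10, 12, 14, 16, 18, 20, 22, 24, 26, 28, 30, 32, 34, 36, 38, 40, 42],
  [0, 2, 3, 5, 6, 8, 9, 11, 12, 14, 15, 17, 18, 20, 21, 23, 24, 26, 27, 29, 30, 32],
  [0, 2, 3, 4, 6, 7, 8, 10, 11, 12, 14, 15, 16, 18, 19, 20, 22, 23, 24, 26, 27, 28],
  [0, 2, 3, 4, 4, 6, 7, 8, 8, 10, 11, 12, 12, 14, 15, 16, 16, 18, 19, 20, 20, 22],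
  [0, 2, 3, 4, 4, 5, 7, 8, 8, 9, 10, 12, 12, 13, 14, 15, 16, 17, 18, 19, 20, 21],
  [0, 2, 3, 4, 4, 5, 5, 7, 8, 9, 9, 10, 10, 12, 13, 14, 14, 15, 15, 17, 18, 19],
  [0, 2, 3, 4, 4, 5, 5, 6, 8, 9, 9, 10, 10, 11, 12, 14, 14, 15, 15, 16, 17, 18],
  [0, 2, 3, 4, 4, 5, 5, 6, 6, 8, 9, 10, 10, 11, 11, 12, 12, 14, 15, 16, 16, 17],
  [0, 2, 3, 4, 4, 5, 5, 6, 6, 6, 8, 9, 10, 10, 11, 11, 12, 12, 12, 14, 15, 16],
  [0, 2, 3, 4, 4, 5, 5, 6, 6, 6, 7, 9, 10, 10, 11, 11, 12, 12, 12, 13, 14, 16],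
  [0, 2, 3, 4, 4, 5, 5, 6, 6, 6, 7, 7, 9, 10, 11, 11, 12, 12, 12, 13, 13, 14],
  [0, 2, 3, 4, 4, 5, 5, 6, 6, 6, 7, 7, 7, 9, 10, 11, 11, 12, 12, 13, 13, 13],
  [0, 2, 3, 4, 4, 5, 5, 6, 6, 6, 7, 7, 7, 8, 10, 11, 11, 12, 12, 13, 13, 13],
  [0, 2, 3, 4, 4, 5, 5, 6, 6, 6, 7, 7, 7, 8, 8, 10, 11, 12, 12, 13, 13, 13],
  [0, 2, 3, 4, 4, 5, 5, 6, 6, 6, 7, 7, 7, 8, 8, 8, 10, 11, 12, 12, 13, 13],
  [0, 2, 3, 4, 4, 5, 5, 6, 6, 6, 7, 7, 7, 8, 8, 8, 8, 10, 11, 12, 12, 13],
  [0, 2, 3, 4, 4, 5, 5, 6, 6, 6, 7, 7, 7, 8, 8, 8, 8, 9, 11, 12, 12, 13],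
  [0, 2, 3, 4, 4, 5, 5, 6, 6, 6, 7, 7, 7, 8, 8, 8, 8, 9, 9, 11, 12, 13],
  [0, 2, 3, 4, 4, 5, 5, 6, 6, 6, 7, 7, 7, 8, 8, 8, 8, 9, 9, 9, 11, 12],
  [0, 2, 3, 4, 4, 5, 5, 6, 6, 6, 7, 7, 7, 8, 8, 8, 8, 9, 9, 9, 9, 11],
  [0, 2, 3, 4, 4, 5, 5, 6, 6, 6, 7, 7, 7, 8, 8, 8, 8, 9, 9, 9, 9, 10]]

/-- Entry of the table. -/
def B (M r : ℕ) : ℕ := (tb.getD M []).getD r 0

theorem tb_step : ∀ M < 22, ∀ r < 22, ∀ a < 22, a ≤ M → r + a ≤ 21 →
    B M (r + a) ≤ B M r + hp.getD a 0 := by decide +kernel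

theorem hp_le : ∀ a < 22, (hp.getD a 0 - 1) ^ 2 < 4 * a ∨ hp.getD a 0 = 0 := by decide +kernel

theorem tb_end : ∀ s < 22, (3 ≤ s ∧ s ≠ 18) → ∀ M < 22, 1 ≤ M → M ≤ s → s + 4 ≤ M + B M s := by
  decide +kernel

theorem tb_zero : ∀ M < 22, B M 0 = 0 := by decide +kernel

theorem hp_bound {a c : ℕ} (ha : a < 22) (h : 4 * a ≤ c ^ 2) : hp.getD a 0 ≤ c := by
  rcases hp_le a ha with h1 | h1
  · by_contra hcon
    have h2 : c ≤ hp.getD a 0 - 1 := by omega
    have h3 := Nat.pow_le_pow_left h2 2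
    omega
  · omega

theorem sum_bound {ι : Type*} (S : Finset ι) (a c : ι → ℕ) (M : ℕ) (hM : M < 22)
    (ha : ∀ z ∈ S, a z ≤ M) (hc : ∀ z ∈ S, 4 * a z ≤ c z ^ 2) :
    ∑ z ∈ S, a z ≤ 21 → B M (∑ z ∈ S, a z) ≤ ∑ z ∈ S, c z := by
  classical
  induction S using Finset.induction_on with
  | empty => intro _; simp [tb_zero M hM]
  | insert z S hz ih =>
    intro h
    rw [sum_insert hz] at h
    rw [sum_insert hz, sum_insert hz]
    have h1 := ih (fun w hw => ha w (mem_insert_of_mem hw))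
      (fun w hw => hc w (mem_insert_of_mem hw)) (by omega)
    have h2 := tb_step M hM (∑ w ∈ S, a w) (by omega) (a z) (by omega)
      (ha z (mem_insert_self _ _)) (by omega)
    have h3 := hp_bound (by omega) (hc z (mem_insert_self _ _))
    rw [add_comm (a z)]
    omega

theorem pairs_bound {α : Type*} [DecidableEq α] (P : Finset (Fin 3 → α)) {s : ℕ} (hP : #P = s)
    (hs : s < 22) (hs3 : 3 ≤ s) (hs18 : s ≠ 18) :
    s + 4 ≤ #(P.image fun p => (p 0, p 1)) + #(P.image fun p => (p 0, p 2)) +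
      #(P.image fun p => (p 1, p 2)) := by
  classical
  set Z : Finset α := P.image fun p => p 2 with hZ
  let L : α → Finset (Fin 3 → α) := fun z => P.filter fun p => p 2 = z
  let x : α → ℕ := fun z => #((L z).image fun p => p 0)
  let y : α → ℕ := fun z => #((L z).image fun p => p 1)
  have hPne : P.Nonempty := card_pos.1 (by omega)
  have hsum : ∑ z ∈ Z, #(L z) = s := by
    rw [← hP, card_eq_sum_card_fiberwise (f := fun p : Fin 3 → α => p 2) (t := Z)
      (fun p hp => mem_coe.2 (mem_image_of_mem _ (mem_coe.1 hp)))]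
  obtain ⟨z₀, hz₀, hmax⟩ := exists_max_image Z (fun z => #(L z)) (hPne.image _)
  have hL2 : ∀ z, #(L z) ≤ #(P.image fun p => (p 0, p 1)) := by
    intro z
    refine card_le_card_of_injOn (fun p => (p 0, p 1)) ?_ ?_
    · intro p hp
      exact mem_coe.2 (mem_image_of_mem _ (mem_filter.1 (mem_coe.1 hp)).1)
    · intro p hp p' hp' h
      have h1 := (mem_filter.1 (mem_coe.1 hp)).2
      have h2 := (mem_filter.1 (mem_coe.1 hp')).2
      have h3 : p 0 = p' 0 := congrArg Prod.fst h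
      have h4 : p 1 = p' 1 := congrArg Prod.snd h
      funext i
      fin_cases i
      · exact h3
      · exact h4
      · exact h1.trans h2.symm
  have hxy : ∀ z, 4 * #(L z) ≤ (x z + y z) ^ 2 := by
    intro z
    have h1 : #(L z) ≤ x z * y z := by
      show #(L z) ≤ #((L z).image fun p => p 0) * #((L z).image fun p => p 1)
      rw [← card_product]
      refine card_le_card_of_injOn (fun p => (p 0, p 1)) ?_ ?_
      · intro p hp
        exact mem_coe.2 (mem_product.2 ⟨mem_image_of_mem _ (mem_coe.1 hp),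
          mem_image_of_mem _ (mem_coe.1 hp)⟩)
      · intro p hp p' hp' h
        have h1 := (mem_filter.1 (mem_coe.1 hp)).2
        have h2 := (mem_filter.1 (mem_coe.1 hp')).2
        have h3 : p 0 = p' 0 := congrArg Prod.fst h
        have h4 : p 1 = p' 1 := congrArg Prod.snd h
        funext i
        fin_cases i
        · exact h3
        · exact h4
        · exact h1.trans h2.symm
    have h2 : 4 * (x z * y z) ≤ (x z + y z) ^ 2 := by
      have h3 : ((4 * (x z * y z) : ℕ) : ℤ) ≤ (((x z + y z) ^ 2 : ℕ) : ℤ) := by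
        push_cast
        nlinarith [sq_nonneg ((x z : ℤ) - y z)]
      exact_mod_cast h3
    omega
  have hx : ∑ z ∈ Z, x z ≤ #(P.image fun p => (p 0, p 2)) := by
    have h1 : ∑ z ∈ Z, x z = #(Z.sigma fun z => (L z).image fun p => p 0) := by
      rw [card_sigma]
    rw [h1]
    refine card_le_card_of_injOn (fun v => (v.2, v.1)) ?_ ?_
    · rintro ⟨z, a⟩ hv
      obtain ⟨-, h2⟩ := mem_sigma.1 (mem_coe.1 hv)
      obtain ⟨p, hp, h3⟩ := mem_image.1 h2
      have h3' : p 0 = a := h3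
      have h4 : p 2 = z := (mem_filter.1 hp).2
      exact mem_coe.2 (mem_image.2 ⟨p, (mem_filter.1 hp).1, by simp only [h3', h4]⟩)
    · rintro ⟨z, a⟩ _ ⟨z', a'⟩ _ h
      have h3 : a = a' := congrArg Prod.fst h
      have h4 : z = z' := congrArg Prod.snd h
      subst h3; subst h4; rfl
  have hy : ∑ z ∈ Z, y z ≤ #(P.image fun p => (p 1, p 2)) := by
    have h1 : ∑ z ∈ Z, y z = #(Z.sigma fun z => (L z).image fun p => p 1) := by
      rw [card_sigma]
    rw [h1]
    refine card_le_card_of_injOn (fun v => (v.2, v.1)) ?_ ?_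
    · rintro ⟨z, a⟩ hv
      obtain ⟨-, h2⟩ := mem_sigma.1 (mem_coe.1 hv)
      obtain ⟨p, hp, h3⟩ := mem_image.1 h2
      have h3' : p 1 = a := h3
      have h4 : p 2 = z := (mem_filter.1 hp).2
      exact mem_coe.2 (mem_image.2 ⟨p, (mem_filter.1 hp).1, by simp only [h3', h4]⟩)
    · rintro ⟨z, a⟩ _ ⟨z', a'⟩ _ h
      have h3 : a = a' := congrArg Prod.fst h
      have h4 : z = z' := congrArg Prod.snd h
      subst h3; subst h4; rfl
  have hM : #(L z₀) ≤ s := by
    rw [← hP]; exact card_filter_le _ _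
  have hM1 : 1 ≤ #(L z₀) := by
    obtain ⟨p, hp, h⟩ := mem_image.1 hz₀
    exact card_pos.2 ⟨p, mem_filter.2 ⟨hp, h⟩⟩
  have h1 := sum_bound Z (fun z => #(L z)) (fun z => x z + y z) #(L z₀) (by omega) hmax
    (fun z _ => hxy z) (by omega)
  rw [hsum, sum_add_distrib] at h1
  have h2 := tb_end s hs ⟨hs3, hs18⟩ #(L z₀) (by omega) hM1 hM
  have h3 := hL2 z₀
  omega

/-- `s` points of a grid, `s ∈ {3, …, 17, 19, 20, 21}`, have more than `s + 3` projections. -/
theorem proj_lower {α : Type*} [DecidableEq α] (P : Finset (Fin 3 → α)) {s : ℕ} (hP : #P = s)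
    (hs : s < 22) (hs3 : 3 ≤ s) (hs18 : s ≠ 18) :
    s + 3 < ∑ i : Fin 3, #(P.image fun p => i.removeNth p) := by
  classical
  have h1 := pairs_bound P hP hs hs3 hs18
  have key : ∀ i j k : Fin 3, j ≠ i → k ≠ i →
      #(P.image fun p => (p j, p k)) ≤ #(P.image fun p => i.removeNth p) := by
    intro i j k hj hk
    refine card_image_le_of_factor P _ _ ?_
    intro p _ p' _ h
    have h2 : i.removeNth p = i.removeNth p' := h
    exact Prod.ext (removeNth_eq (P := fun _ => α) h2 j hj) (removeNth_eq (P := fun _ => α) h2 k hk)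
  have k0 := key 0 1 2 (by decide) (by decide)
  have k1 := key 1 0 2 (by decide) (by decide)
  have k2 := key 2 0 1 (by decide) (by decide)
  rw [Fin.sum_univ_three]
  omega

theorem gridSet_of_pairs {s K : ℕ} (T : Finset (Fin 3 → Fin K)) (hT : #T = s)
    (h : #(T.image fun p => (p 0, p 1)) + #(T.image fun p => (p 0, p 2)) +
      #(T.image fun p => (p 1, p 2)) ≤ s + 3) : GridSet s K := by
  classical
  refine ⟨T, hT, ?_⟩
  have key : ∀ i j k : Fin 3, j ≠ i → k ≠ i → (∀ l, l ≠ i → l = j ∨ l = k) →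
      #(T.image fun t => fun j : {j : Fin 3 // j ≠ i} => t j) ≤
        #(T.image fun p => (p j, p k)) := by
    intro i j k hj hk hl
    refine card_image_le_of_factor T _ _ ?_
    intro p _ p' _ h
    funext l
    rcases hl l.1 l.2 with h1 | h1
    · show p l.1 = p' l.1
      rw [h1]; exact congrArg Prod.fst h
    · show p l.1 = p' l.1
      rw [h1]; exact congrArg Prod.snd h
  have k0 := key 0 1 2 (by decide) (by decide) (by decide)
  have k1 := key 1 0 2 (by decide) (by decide) (by decide)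
  have k2 := key 2 0 1 (by decide) (by decide) (by decide)
  rw [Fin.sum_univ_three]
  omega

theorem gridSet_mono {s K K' : ℕ} (hKK : K ≤ K') (h : GridSet s K) : GridSet s K' := by
  classical
  obtain ⟨T, hT, hTs⟩ := h
  let g : (Fin 3 → Fin K) → (Fin 3 → Fin K') := fun t j => Fin.castLE hKK (t j)
  have hg : Function.Injective g := by
    intro t t' h
    funext j
    exact Fin.castLE_injective hKK (congrFun h j)
  refine ⟨T.image g, by rw [card_image_of_injective _ hg, hT], (sum_le_sum fun i _ => ?_).trans hTs⟩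
  rw [image_image]
  refine card_image_le_of_factor T _ _ ?_
  intro t _ t' _ h
  funext j
  show Fin.castLE hKK (t j) = Fin.castLE hKK (t' j)
  have h1 : t j.1 = t' j.1 := congrFun h j
  rw [h1]

theorem gridSet_big {s : ℕ} (hs : s = 18 ∨ 23 ≤ s) : GridSet s s := by
  classical
  have hs18 : 18 ≤ s := by omega
  let G : ℕ → Fin 3 → Fin s := fun t =>
    ![⟨t % 3, by omega⟩, ⟨t / 3 % 3, by omega⟩, ⟨min (t / 9) (s - 1), by omega⟩]
  have h0 : ∀ t, ((G t 0 : Fin s) : ℕ) = t % 3 := fun t => rfl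
  have h1 : ∀ t, ((G t 1 : Fin s) : ℕ) = t / 3 % 3 := fun t => rfl
  have h2 : ∀ t, ((G t 2 : Fin s) : ℕ) = min (t / 9) (s - 1) := fun t => rfl
  refine gridSet_of_pairs ((range s).image G) ?_ ?_
  · rw [card_image_of_injOn, card_range]
    intro t ht t' ht' h
    have ht := mem_range.1 (mem_coe.1 ht)
    have ht' := mem_range.1 (mem_coe.1 ht')
    have e0 := congrArg Fin.val (congrFun h 0)
    have e1 := congrArg Fin.val (congrFun h 1)
    have e2 := congrArg Fin.val (congrFun h 2)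
    rw [h0, h0] at e0
    rw [h1, h1] at e1
    rw [h2, h2] at e2
    omega
  · have b0 : #(((range s).image G).image fun p => (p 0, p 1)) ≤ 9 := by
      have h : ((range s).image G).image (fun p => (p 0, p 1)) ⊆
          (range 9).image fun t => (G t 0, G t 1) := by
        intro v hv
        rw [image_image] at hv
        obtain ⟨t, ht, rfl⟩ := mem_image.1 hv
        refine mem_image.2 ⟨t % 9, mem_range.2 (by omega), ?_⟩
        refine Prod.ext (Fin.ext ?_) (Fin.ext ?_)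
        · show ((G (t % 9) 0 : Fin s) : ℕ) = ((G t 0 : Fin s) : ℕ)
          rw [h0, h0]; omega
        · show ((G (t % 9) 1 : Fin s) : ℕ) = ((G t 1 : Fin s) : ℕ)
          rw [h1, h1]; omega
      exact (card_le_card h).trans (card_image_le.trans (card_range _).le)
    have b1 : #(((range s).image G).image fun p => (p 0, p 2)) ≤
        3 * (s / 9) + min 3 (s % 9) := by
      have h : ((range s).image G).image (fun p => (p 0, p 2)) ⊆
          (range (3 * (s / 9) + min 3 (s % 9))).image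
            fun u => (G (9 * (u / 3) + u % 3) 0, G (9 * (u / 3) + u % 3) 2) := by
        intro v hv
        rw [image_image] at hv
        obtain ⟨t, ht, rfl⟩ := mem_image.1 hv
        have ht := mem_range.1 ht
        refine mem_image.2 ⟨3 * (t / 9) + t % 3, mem_range.2 (by omega), ?_⟩
        refine Prod.ext (Fin.ext ?_) (Fin.ext ?_)
        · show ((G _ 0 : Fin s) : ℕ) = ((G t 0 : Fin s) : ℕ)
          rw [h0, h0]; omega
        · show ((G _ 2 : Fin s) : ℕ) = ((G t 2 : Fin s) : ℕ)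
          rw [h2, h2]; omega
      exact (card_le_card h).trans (card_image_le.trans (card_range _).le)
    have b2 : #(((range s).image G).image fun p => (p 1, p 2)) ≤ (s + 2) / 3 := by
      have h : ((range s).image G).image (fun p => (p 1, p 2)) ⊆
          (range ((s + 2) / 3)).image fun u => (G (3 * u) 1, G (3 * u) 2) := by
        intro v hv
        rw [image_image] at hv
        obtain ⟨t, ht, rfl⟩ := mem_image.1 hv
        have ht := mem_range.1 ht
        refine mem_image.2 ⟨t / 3, mem_range.2 (by omega), ?_⟩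
        refine Prod.ext (Fin.ext ?_) (Fin.ext ?_)
        · show ((G _ 1 : Fin s) : ℕ) = ((G t 1 : Fin s) : ℕ)
          rw [h1, h1]; omega
        · show ((G _ 2 : Fin s) : ℕ) = ((G t 2 : Fin s) : ℕ)
          rw [h2, h2]; omega
      exact (card_le_card h).trans (card_image_le.trans (card_range _).le)
    omega

theorem gridSet_exists (s : ℕ) (hs : s = 2 ∨ s = 18 ∨ 22 ≤ s) : GridSet s s := by
  rcases hs with rfl | rfl | hs
  · exact gridSet_of_pairs (univ.filter fun t : Fin 3 → Fin 2 => t 1 = 0 ∧ t 2 = 0)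
      (by decide) (by decide)
  · exact gridSet_big (Or.inl rfl)
  · rcases Nat.eq_or_lt_of_le hs with rfl | hs
    · exact gridSet_mono (by norm_num : 3 ≤ 22) (gridSet_of_pairs
        (univ.filter fun t : Fin 3 → Fin 3 => t 2 < 2 ∨ (t 0 < 2 ∧ t 1 < 2))
        (by decide +kernel) (by decide +kernel))
    · exact gridSet_big (Or.inr hs)

end Pool.Agent.T3h47.BM
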