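import Pool.Agent.T3h47.BM.Num

/-!
# Hypergraphs which are unions of relations closed under Mal'tsev operations
-/

set_option autoImplicit false

namespace Pool.Agent.T3h47.BM

open Finset Pool.Agent.R181.Maj

/-- `F` is a relation between three pairwise disjoint sets of vertices, closed under componentwise
application of some Mal'tsev operations `q i` on these sets. -/
def MaltsevPiece {V : Type} (F : Set (Finset V)) : Prop :=
  ∃ (X : Fin 3 → Type) (q : ∀ i, X i → X i → X i → X i) (f : (Σ i, X i) → V)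
    (E : Set (∀ i, X i)), (∀ i, IsMaltsev (q i)) ∧ Function.Injective f ∧
    (∀ x ∈ E, ∀ y ∈ E, ∀ z ∈ E, (fun i => q i (x i) (y i) (z i)) ∈ E) ∧ F = edge f '' E

theorem piece_bounds {V : Type} [Fintype V] {s : ℕ} (hs1 : 1 ≤ s) {H : Set (Finset V)}
    (hH : SpanMore H s (s + 3)) {F : Set (Finset V)} (hF : MaltsevPiece F) (hFH : F ⊆ H) :
    27 * F.ncard ^ 2 ≤ (s - 1) ^ 2 * Fintype.card V ^ 3 ∧
    ∀ K, GridSet s K → F.ncard ≤ K * (s - 1) * Fintype.card V := by
  classical
  obtain ⟨X, q, f, E, hq, hf, hE, rfl⟩ := hF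
  have hfi : ∀ i, Function.Injective fun a : X i => f ⟨i, a⟩ := fun i a b hab =>
    eq_of_heq (Sigma.mk.inj (hf hab)).2
  have : ∀ i, Finite (X i) := fun i => Finite.of_injective _ (hfi i)
  let _ : ∀ i, Fintype (X i) := fun i => Fintype.ofFinite (X i)
  have hsum : ∑ i, Fintype.card (X i) ≤ Fintype.card V := by
    rw [← Fintype.card_sigma]
    exact Fintype.card_le_of_injective f hf
  let A := {x // x ∈ E.toFinset}
  have hmE : ∀ x : A, x.1 ∈ E := fun x => Set.mem_toFinset.1 x.2
  let g : ∀ i, A → X i := fun i x => x.1 i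
  let p : A → A → A → A := fun x y z => ⟨fun i => q i (x.1 i) (y.1 i) (z.1 i),
    Set.mem_toFinset.2 (hE _ (hmE x) _ (hmE y) _ (hmE z))⟩
  have hp : IsMaltsev p := by
    intro a b
    exact ⟨Subtype.ext (funext fun i => (hq i _ _).1), Subtype.ext (funext fun i => (hq i _ _).2)⟩
  have hg : ∀ i a b c, g i (p a b c) = q i (g i a) (g i b) (g i c) := fun _ _ _ _ => rfl
  have hs : ∀ T : Finset A, #T = s → s + 3 < spn g T := by
    intro T hT
    set T' : Finset (∀ i, X i) := T.map (Function.Embedding.subtype _) with hT'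
    have h1 := hH (T'.image (edge f)) (by
      rw [coe_image]
      rintro a ⟨x, hx, rfl⟩
      obtain ⟨y, -, rfl⟩ := mem_map.1 (mem_coe.1 hx)
      exact hFH ⟨y.1, hmE y, rfl⟩)
      (by rw [card_image_of_injective _ (edge_injective hf), hT', card_map, hT])
    rw [union_eq hf] at h1
    have h2 : ∀ i, T'.image (fun x : ∀ i, X i => x i) = T.image (g i) := by
      intro i
      rw [hT', map_eq_image, image_image]
      rfl
    simp only [h2] at h1
    exact h1
  have hcard : (edge f '' E).ncard = Fintype.card A := by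
    rw [Set.ncard_image_of_injective _ (edge_injective hf), Set.ncard_eq_toFinset_card',
      Fintype.card_coe]
  rw [hcard]
  refine ⟨?_, fun K hK => ?_⟩
  · have h1 := bound32 hp hg hs1 hs
    have h2 : ∏ i, #(univ.image (g i)) ≤ ∏ i, Fintype.card (X i) :=
      prod_le_prod' fun i _ => card_le_univ _
    have h3 := amgm (univ : Finset (Fin 3)) univ_nonempty fun i => Fintype.card (X i)
    rw [card_univ, Fintype.card_fin] at h3
    calc 27 * Fintype.card A ^ 2 ≤ 27 * ((s - 1) ^ 2 * ∏ i, Fintype.card (X i)) :=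
          Nat.mul_le_mul_left _ (h1.trans (Nat.mul_le_mul_left _ h2))
      _ = (s - 1) ^ 2 * (3 ^ 3 * ∏ i, Fintype.card (X i)) := by ring
      _ ≤ (s - 1) ^ 2 * (∑ i, Fintype.card (X i)) ^ 3 := Nat.mul_le_mul_left _ h3
      _ ≤ _ := Nat.mul_le_mul_left _ (Nat.pow_le_pow_left hsum _)
  · have h1 := bound1 hp hq hg hs1 hK hs
    refine h1.trans (Nat.mul_le_mul_left _ (le_trans ?_ hsum))
    exact sum_le_sum fun i _ => card_le_univ _

theorem linear (s : ℕ) (hs : s = 2 ∨ s = 18 ∨ 22 ≤ s) (L : ℕ) (V : Type) [Fintype V]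
    (H : Set (Finset V)) (F : Fin L → Set (Finset V)) (hF : ∀ i, MaltsevPiece (F i))
    (hH : H = ⋃ i, F i) (hsp : SpanMore H s (s + 3)) :
    H.ncard ≤ s * (s - 1) * L * Fintype.card V := by
  classical
  have h1 : ∀ i, (F i).ncard ≤ s * (s - 1) * Fintype.card V := fun i =>
    (piece_bounds (by omega) hsp (hF i) (by rw [hH]; exact Set.subset_iUnion F i)).2 s
      (gridSet_exists s hs)
  have h6 : H.ncard ≤ ∑ i : Fin L, (F i).ncard := by
    rw [hH]
    exact Set.ncard_iUnion_le_of_fintype F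
  calc H.ncard ≤ ∑ i : Fin L, (F i).ncard := h6
    _ ≤ ∑ _i : Fin L, s * (s - 1) * Fintype.card V := sum_le_sum fun i _ => h1 i
    _ = s * (s - 1) * L * Fintype.card V := by
        rw [sum_const, card_univ, Fintype.card_fin, smul_eq_mul]; ring

theorem upper (s : ℕ) (hs : 1 ≤ s) (L : ℕ) (V : Type) [Fintype V] (H : Set (Finset V))
    (F : Fin L → Set (Finset V)) (hF : ∀ i, MaltsevPiece (F i)) (hH : H = ⋃ i, F i)
    (hsp : SpanMore H s (s + 3)) :
    (H.ncard : ℝ) ≤ (s - 1) * L * ((Fintype.card V : ℝ) / 3) ^ (3 / 2 : ℝ) := by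
  classical
  have hs1 : (0 : ℝ) ≤ (s : ℝ) - 1 := by
    have : (1 : ℝ) ≤ s := by exact_mod_cast hs
    linarith
  have h1 : ∀ i, ((F i).ncard : ℝ) ≤ (s - 1) * ((Fintype.card V : ℝ) / 3) ^ (3 / 2 : ℝ) := by
    intro i
    have h2 := (piece_bounds hs hsp (hF i) (by rw [hH]; exact Set.subset_iUnion F i)).1
    refine le_of_pow_le_pow_left₀ (n := 2) (by norm_num) (by positivity) ?_
    have h3 : (((Fintype.card V : ℝ) / 3) ^ (3 / 2 : ℝ)) ^ 2 = ((Fintype.card V : ℝ) / 3) ^ 3 := by
      rw [← Real.rpow_natCast, ← Real.rpow_mul (by positivity)]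
      norm_num
    rw [mul_pow, h3]
    have h4 : ((27 * (F i).ncard ^ 2 : ℕ) : ℝ) ≤
        (((s - 1) ^ 2 * Fintype.card V ^ 3 : ℕ) : ℝ) := by exact_mod_cast h2
    rw [Nat.cast_mul, Nat.cast_mul, Nat.cast_pow, Nat.cast_pow, Nat.cast_pow,
      Nat.cast_sub hs] at h4
    norm_num at h4
    rw [div_pow]
    linarith
  have h6 : H.ncard ≤ ∑ i : Fin L, (F i).ncard := by
    rw [hH]
    exact Set.ncard_iUnion_le_of_fintype F
  calc (H.ncard : ℝ) ≤ ((∑ i : Fin L, (F i).ncard : ℕ) : ℝ) := by exact_mod_cast h6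
    _ = ∑ i : Fin L, ((F i).ncard : ℝ) := by push_cast; rfl
    _ ≤ ∑ _i : Fin L, (s - 1) * ((Fintype.card V : ℝ) / 3) ^ (3 / 2 : ℝ) :=
        sum_le_sum fun i _ => h1 i
    _ = (s - 1) * L * ((Fintype.card V : ℝ) / 3) ^ (3 / 2 : ℝ) := by
        rw [sum_const, card_univ, Fintype.card_fin, nsmul_eq_mul]; ring

/-! ### The grid -/

/-- A Mal'tsev operation on every set. -/
noncomputable def mal {S : Type*} (a b c : S) : S := by
  classical exact if a = b then c else a

theorem isMaltsev_mal (S : Type*) : IsMaltsev (mal : S → S → S → S) := by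
  classical
  intro a b
  refine ⟨by simp [mal], ?_⟩
  by_cases h : b = a
  · simp [mal, h]
  · simp [mal, h]

theorem grid_piece' (q : ℕ) : MaltsevPiece (grid 2 q) := by
  classical
  refine ⟨fun _ => Fin 2 → Fin q, fun _ a b c k => mal (a k) (b k) (c k), id,
    Set.range fun (p : Fin 3 → Fin q) i => i.removeNth p, ?_, Function.injective_id, ?_, ?_⟩
  · intro i a b
    exact ⟨funext fun k => (isMaltsev_mal _ _ _).1, funext fun k => (isMaltsev_mal _ _ _).2⟩
  · rintro _ ⟨p, rfl⟩ _ ⟨p', rfl⟩ _ ⟨p'', rfl⟩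
    exact ⟨fun j => mal (p j) (p' j) (p'' j), rfl⟩
  · rw [grid, ← Set.range_comp]
    rfl

theorem grid_span' (q s : ℕ) (hs3 : 3 ≤ s) (hs : s ≤ 21) (hs18 : s ≠ 18) :
    SpanMore (grid 2 q) s (s + 3) := by
  classical
  intro T hT hTe
  set g : (Fin 3 → Fin q) → Finset (GridV 2 q) := fun p =>
    edge (V := GridV 2 q) (X := fun _ => Fin 2 → Fin q) id fun i => i.removeNth p with hg
  have hginj : Function.Injective g :=
    (edge_injective Function.injective_id).comp (grid_point_injective 2 q (by norm_num))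
  set P : Finset (Fin 3 → Fin q) := univ.filter fun p => g p ∈ T with hP
  have hPT : P.image g = T := by
    ext a
    rw [mem_image]
    constructor
    · rintro ⟨p, hp, rfl⟩
      exact (mem_filter.1 hp).2
    · intro ha
      obtain ⟨p, rfl⟩ := hT ha
      exact ⟨p, mem_filter.2 ⟨mem_univ _, ha⟩, rfl⟩
  have hPe : #P = s := by
    rw [← hTe, ← hPT, card_image_of_injective _ hginj]
  have h1 : T = (P.image fun p => fun i : Fin 3 => i.removeNth p).image
      (edge (V := GridV 2 q) (X := fun _ => Fin 2 → Fin q) id) := by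
    rw [image_image, ← hPT]
    rfl
  have h2 := union_eq (V := GridV 2 q) (X := fun _ => Fin 2 → Fin q) (f := id)
    Function.injective_id (P.image fun p => fun i : Fin 3 => i.removeNth p)
  rw [← h1] at h2
  rw [h2]
  have h3 : ∀ i : Fin 3, (P.image fun p => fun i : Fin 3 => i.removeNth p).image
      (fun x => x i) = P.image fun p => i.removeNth p := by
    intro i
    rw [image_image]
    rfl
  simp only [h3]
  exact proj_lower P hPe (by omega) hs3 hs18

/-! ### Every linear triple system is a union of `n` pieces -/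

/-- One point and two copies of `S`. -/
def SX (S : Type) : Fin 3 → Type
  | 0 => Unit
  | 1 => S
  | 2 => S

/-- The Mal'tsev operations on these sets. -/
noncomputable def sq (S : Type) : ∀ i, SX S i → SX S i → SX S i → SX S i
  | 0 => fun _ _ _ => ()
  | 1 => fun a b c => mal a b c
  | 2 => fun a b c => mal a b c

/-- The vertices. -/
def sf {S V : Type} (v : V) (a b : S → V) : (Σ i, SX S i) → V
  | ⟨0, _⟩ => v
  | ⟨1, e⟩ => a e
  | ⟨2, e⟩ => b e

theorem star_piece {V : Type} [Fintype V] (H : Set (Finset V)) (h3 : ∀ e ∈ H, #e = 3)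
    (hH : SpanMore H 2 4) (v : V) : MaltsevPiece {e | e ∈ H ∧ v ∈ e} := by
  classical
  set S := {e : Finset V // e ∈ H ∧ v ∈ e} with hS
  have hch : ∀ e : S, ∃ a b : V, e.1 = {v, a, b} ∧ v ≠ a ∧ v ≠ b ∧ a ≠ b := by
    intro e
    obtain ⟨x, y, z, hxy, hxz, hyz, he⟩ := card_eq_three.1 (h3 _ e.2.1)
    have hv := e.2.2
    rw [he, mem_insert, mem_insert, mem_singleton] at hv
    rcases hv with rfl | rfl | rfl
    · exact ⟨y, z, he, hxy, hxz, hyz⟩
    · refine ⟨x, z, ?_, hxy.symm, hyz, hxz⟩
      rw [he]; ext w; simp only [mem_insert, mem_singleton]; tauto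
    · refine ⟨x, y, ?_, hxz.symm, hyz.symm, hxy⟩
      rw [he]; ext w; simp only [mem_insert, mem_singleton]; tauto
  choose a b hab hva hvb hne using hch
  -- two edges through `v` and `w` are equal
  have hlin : ∀ (e e' : S) (w : V), v ≠ w → w ∈ e.1 → w ∈ e'.1 → e = e' := by
    intro e e' w hw he he'
    by_contra hcon
    have h1 := hH {e.1, e'.1} (by
      intro x hx
      rw [coe_insert, coe_singleton, Set.mem_insert_iff, Set.mem_singleton_iff] at hx
      rcases hx with rfl | rfl
      · exact e.2.1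
      · exact e'.2.1) (card_pair fun h => hcon (Subtype.ext h))
    have h2 : (⋃ x ∈ ({e.1, e'.1} : Finset (Finset V)), (x : Set V)) = ↑(e.1 ∪ e'.1) := by
      ext x
      simp
    rw [h2, Set.ncard_coe_finset] at h1
    have h4 : ({v, w} : Finset V) ⊆ e.1 ∩ e'.1 := by
      intro x hx
      rw [mem_insert, mem_singleton] at hx
      rcases hx with rfl | rfl
      · exact mem_inter.2 ⟨e.2.2, e'.2.2⟩
      · exact mem_inter.2 ⟨he, he'⟩
    have h5 := card_le_card h4
    rw [card_pair hw] at h5
    have h6 := card_union_add_card_inter e.1 e'.1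
    rw [h3 _ e.2.1, h3 _ e'.2.1] at h6
    omega
  have ha : ∀ e : S, a e ∈ e.1 := fun e => by rw [hab e]; simp
  have hb : ∀ e : S, b e ∈ e.1 := fun e => by rw [hab e]; simp
  refine ⟨SX S, sq S, sf v a b, {x | (x 1 : S) = x 2}, ?_, ?_, ?_, ?_⟩
  · intro i
    fin_cases i
    · intro x y
      exact ⟨rfl, rfl⟩
    · exact isMaltsev_mal S
    · exact isMaltsev_mal S
  · rintro ⟨i, x⟩ ⟨j, y⟩ h
    fin_cases i <;> fin_cases j
    · rfl
    · exact absurd h (hva y)
    · exact absurd h (hvb y)
    · exact absurd h.symm (hva x)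
    · have h' : a x = a y := h
      have : x = y := hlin x y (a x) (hva x) (ha x) (h' ▸ ha y)
      subst this; rfl
    · have h' : a x = b y := h
      have h1 : x = y := hlin x y (a x) (hva x) (ha x) (h' ▸ hb y)
      subst h1
      exact absurd h' (hne x)
    · exact absurd h.symm (hvb x)
    · have h' : b x = a y := h
      have h1 : x = y := hlin x y (b x) (hvb x) (hb x) (h' ▸ ha y)
      subst h1
      exact absurd h'.symm (hne x)
    · have h' : b x = b y := h
      have : x = y := hlin x y (b x) (hvb x) (hb x) (h' ▸ hb y)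
      subst this; rfl
  · intro x hx y hy z hz
    have hx' : (x 1 : S) = x 2 := hx
    have hy' : (y 1 : S) = y 2 := hy
    have hz' : (z 1 : S) = z 2 := hz
    show (mal (x 1 : S) (y 1) (z 1) : S) = mal (x 2 : S) (y 2) (z 2)
    rw [hx', hy', hz']
    rfl
  · ext e
    constructor
    · intro he
      let e' : S := ⟨e, he⟩
      let x : ∀ i, SX S i := fun i => match i with
        | 0 => ()
        | 1 => e'
        | 2 => e'
      refine ⟨x, rfl, ?_⟩
      ext w
      rw [edge, mem_image]
      constructor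
      · rintro ⟨i, -, rfl⟩
        fin_cases i
        · exact he.2
        · exact ha e'
        · exact hb e'
      · intro hw
        have hw' : w ∈ e'.1 := hw
        rw [hab e', mem_insert, mem_insert, mem_singleton] at hw'
        rcases hw' with rfl | rfl | rfl
        · exact ⟨0, mem_univ _, rfl⟩
        · exact ⟨1, mem_univ _, rfl⟩
        · exact ⟨2, mem_univ _, rfl⟩
    · rintro ⟨x, hx, rfl⟩
      have hx' : (x 1 : S) = x 2 := hx
      have h1 : edge (sf v a b) x = (x 1 : S).1 := by
        ext w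
        rw [edge, mem_image, hab (x 1 : S), mem_insert, mem_insert, mem_singleton]
        constructor
        · rintro ⟨i, -, rfl⟩
          fin_cases i
          · exact Or.inl rfl
          · exact Or.inr (Or.inl rfl)
          · refine Or.inr (Or.inr ?_)
            show b (x 2 : S) = b (x 1 : S)
            rw [hx']
        · rintro (rfl | rfl | rfl)
          · exact ⟨0, mem_univ _, rfl⟩
          · exact ⟨1, mem_univ _, rfl⟩
          · refine ⟨2, mem_univ _, ?_⟩
            show b (x 2 : S) = b (x 1 : S)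
            rw [hx']
      rw [h1]
      exact (x 1 : S).2

theorem star_union {V : Type} [Fintype V] (H : Set (Finset V)) (h3 : ∀ e ∈ H, #e = 3)
    (hH : SpanMore H 2 4) :
    ∃ F : V → Set (Finset V), (∀ v, MaltsevPiece (F v)) ∧ H = ⋃ v, F v := by
  refine ⟨fun v => {e | e ∈ H ∧ v ∈ e}, fun v => star_piece H h3 hH v, ?_⟩
  ext e
  rw [Set.mem_iUnion]
  constructor
  · intro he
    obtain ⟨v, hv⟩ := card_pos.1 (by rw [h3 e he]; norm_num : 0 < #e)
    exact ⟨v, he, hv⟩
  · rintro ⟨v, he, -⟩
    exact he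

end Pool.Agent.T3h47.BM
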